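import Pool.Agent.N71.SP.Stm
import Pool.Agent.R345.IYPar

/-!
# SP/PAR2 (project SP of helper71, MP_d0fd9b_nt): parameters of part B
-/

set_option autoImplicit false

namespace Pool.Agent.N704.SP

open Finset Filter Pool.Agent.H38R2.CG Pool.Agent.R345.IX Pool.Agent.N71.SP
open scoped Classical

theorem yS_eq (a : ℝ) (X : ℕ) : yS a X = yI a X := rfl

theorem iT_eq (a : ℝ) (X : ℕ) : iT a X = Pool.Agent.R345.IY.iJ a X := rfl

/-- the number of primes -/
theorem card_low {L a σ y n0 : ℝ} (hL0 : 0 < L) (hσ : 0 < σ) (hσ1 : σ ≤ 1)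
    (p1 : L ^ a / 8 ≤ y) (hn : y ^ σ ≤ n0) : L ^ (a * σ) / 8 ≤ n0 := by
  refine le_trans ?_ hn
  have h1 : (L ^ a / 8) ^ σ ≤ y ^ σ := Real.rpow_le_rpow (by positivity) p1 hσ.le
  refine le_trans ?_ h1
  rw [Real.div_rpow (by positivity) (by norm_num), ← Real.rpow_mul hL0.le]
  apply div_le_div_of_nonneg_left (by positivity) (by positivity)
  calc (8 : ℝ) ^ σ ≤ (8 : ℝ) ^ (1 : ℝ) := Real.rpow_le_rpow_of_exponent_le (by norm_num) hσ1
    _ = 8 := Real.rpow_one 8

theorem t_PAR2 : Pool.Agent.N71.SP.E_PAR2 := by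
  rintro P σ hσ hσ1 ⟨y0, hy0⟩ a haσ ε C hε hC
  have ha0 : 0 < a := by
    by_contra h
    push Not at h
    nlinarith
  have ha : 1 < a := by nlinarith
  have hs : 0 < a * σ - 1 := by linarith
  have hLt : Tendsto (fun X : ℕ => Real.log (X : ℝ)) atTop atTop :=
    Real.tendsto_log_atTop.comp tendsto_natCast_atTop_atTop
  have hlt : Tendsto (fun X : ℕ => Real.log (Real.log (X : ℝ))) atTop atTop :=
    Real.tendsto_log_atTop.comp hLt
  have hc : 0 < min (ε / (4 * a)) (1 / (16 * a)) := by positivity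
  filter_upwards [Pool.Agent.R345.IY.params_i a ha (ε / 2) C (by positivity) hC,
    hLt.eventually_ge_atTop (8 * (y0 : ℝ)), hLt.eventually_ge_atTop 64,
    hLt.eventually_ge_atTop (8 / ε),
    hlt.eventually_ge_atTop 4, hlt.eventually_ge_atTop (2 / ε),
    hlt.eventually_ge_atTop (6 / (a * σ - 1)),
    hLt.eventually (ev_ll _ hc), eventually_ge_atTop 2] with X q e1 e2 e3 e4 e5 e6 e7 e8
  obtain ⟨q1, q2, q3⟩ := q
  rw [← iT_eq] at q1
  rw [← iT_eq, ← yS_eq] at q2 q3
  set L := Real.log (X : ℝ) with hL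
  set l := Real.log L with hl
  obtain ⟨p1, p2, p3, p4, p5, p6, p7, p8, p9, p10⟩ := par1 a ha X L l hL hl (by linarith) e4
  rw [← yS_eq] at p1 p2 p3 p4 p5 p6 p7
  have hidef : iT a X = ⌈2 * Real.log (2 * X) / Real.log (2 * yS a X)⌉₊ := rfl
  have hkdef : kS a (1 / 2) X = ⌊1 / 2 * L / Real.log (2 * yS a X)⌋₊ := rfl
  have hjdef : kT a X = kS a (1 / 2) X - 1 := rfl
  set y := yS a X with hy
  set i := iT a X with hi
  set j := kT a X with hj
  set k := kS a (1 / 2) X with hk
  have hn0' : y0 ≤ y → (y : ℝ) ^ σ ≤ ((QQ P y).card : ℝ) := fun h => hy0 y h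
  set n0 := (QQ P y).card with hn0
  have hL0 : 0 < L := by linarith
  have hl0 : 0 < l := by linarith
  have hX0 : (0 : ℝ) < X := by
    have : 0 < X := by omega
    exact_mod_cast this
  have hlal : l ≤ a * l := by
    have := mul_le_mul_of_nonneg_right ha.le hl0.le
    linarith
  have hal : 4 ≤ a * l := by linarith
  have hal0 : 0 < a * l := by linarith
  have hsmall1 : l ≤ ε / (4 * a) * L :=
    e7.trans (mul_le_mul_of_nonneg_right (min_le_left _ _) hL0.le)
  have hsmall2 : l ≤ 1 / (16 * a) * L :=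
    e7.trans (mul_le_mul_of_nonneg_right (min_le_right _ _) hL0.le)
  have hale : a * l ≤ ε / 4 * L := by
    calc a * l ≤ a * (ε / (4 * a) * L) := by gcongr
      _ = ε / 4 * L := by field_simp
  have h16 : 16 * (a * l) ≤ L := by
    have : l * (16 * a) ≤ L := by
      calc l * (16 * a) ≤ (1 / (16 * a) * L) * (16 * a) := by gcongr
        _ = L := by field_simp
    linarith
  have hLa : L ≤ L ^ a := by
    have := Real.rpow_le_rpow_of_exponent_le (by linarith : 1 ≤ L) ha.le
    rwa [Real.rpow_one] at this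
  have hyy0 : y0 ≤ y := by
    have h1 : (y0 : ℝ) ≤ y := by linarith
    exact_mod_cast h1
  have hn := hn0' hyy0
  have hypos : (0 : ℝ) < y := by
    have : 0 < y := by omega
    exact_mod_cast this
  have hn0pos : (0 : ℝ) < n0 := lt_of_lt_of_le (by positivity) hn
  have hlog2y : 0 < Real.log (2 * y) := by linarith
  have hlog2 := Real.log_two_lt_d9
  have hlog2y' : Real.log (2 * y) = Real.log 2 + Real.log y :=
    Real.log_mul (by norm_num) hypos.ne'
  have hlogy1 : 1 ≤ Real.log y := by linarith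
  have hlog20 : 0 < Real.log 2 := Real.log_pos (by norm_num)
  refine ⟨q1, q2, ?_, ?_⟩
  · -- the large sieve bound
    have hlog2X : Real.log (2 * X) ≤ L + 1 := by
      rw [Real.log_mul (by norm_num) hX0.ne']
      linarith
    have hlog2X0 : 0 < Real.log (2 * X) := by
      rw [Real.log_mul (by norm_num) hX0.ne']
      linarith
    have hi2 : (i : ℝ) < 2 * Real.log (2 * X) / Real.log (2 * y) + 1 := by
      rw [hidef]
      exact Nat.ceil_lt_add_one (by positivity)
    have hi3 : (i : ℝ) * Real.log (2 * y) ≤ 2 * L + 2 + a * l := by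
      have h1 : (i : ℝ) * Real.log (2 * y) ≤
          (2 * Real.log (2 * X) / Real.log (2 * y) + 1) * Real.log (2 * y) :=
        mul_le_mul_of_nonneg_right hi2.le hlog2y.le
      have h2 : (2 * Real.log (2 * X) / Real.log (2 * y) + 1) * Real.log (2 * y) =
          2 * Real.log (2 * X) + Real.log (2 * y) := by
        field_simp
      linarith
    have hA : 3 * (y : ℝ) / n0 ≤ 3 * Real.log y * (y : ℝ) ^ (1 - σ) := by
      have h1 : (y : ℝ) / n0 ≤ (y : ℝ) ^ (1 - σ) := by
        rw [Real.rpow_sub hypos, Real.rpow_one]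
        exact div_le_div_of_nonneg_left hypos.le (by positivity) hn
      have h2 : 0 < (y : ℝ) ^ (1 - σ) := by positivity
      calc 3 * (y : ℝ) / n0 = 3 * ((y : ℝ) / n0) := by ring
        _ ≤ 3 * (y : ℝ) ^ (1 - σ) := by linarith
        _ = 3 * 1 * (y : ℝ) ^ (1 - σ) := by ring
        _ ≤ 3 * Real.log y * (y : ℝ) ^ (1 - σ) := by gcongr
    have hB : ((y : ℝ) ^ (1 - σ)) ^ i ≤ (X : ℝ) ^ (2 * (1 - σ) + ε / 2) := by
      rw [← Real.log_le_log_iff (by positivity) (by positivity), Real.log_pow,
        Real.log_rpow hypos, Real.log_rpow hX0]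
      have h1 : (i : ℝ) * Real.log y ≤ 2 * L + 2 + a * l := by
        refine le_trans ?_ hi3
        apply mul_le_mul_of_nonneg_left _ (Nat.cast_nonneg _)
        linarith
      have h2 : (i : ℝ) * ((1 - σ) * Real.log y) = (1 - σ) * ((i : ℝ) * Real.log y) := by ring
      rw [h2]
      have h3 : (1 - σ) * ((i : ℝ) * Real.log y) ≤ (1 - σ) * (2 * L + 2 + a * l) :=
        mul_le_mul_of_nonneg_left h1 (by linarith)
      have h4 : (1 - σ) * (2 + a * l) ≤ 2 + a * l := by
        have h5 : 0 ≤ σ * (2 + a * l) := by positivity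
        linarith
      have h5 : 8 ≤ ε * L := by
        rw [div_le_iff₀ hε] at e3
        linarith
      have h6 : (2 * (1 - σ) + ε / 2) * L = (1 - σ) * (2 * L) + ε / 2 * L := by ring
      have h7 : (1 - σ) * (2 * L + 2 + a * l) = (1 - σ) * (2 * L) + (1 - σ) * (2 + a * l) := by ring
      rw [h6]
      rw [h7] at h3
      linarith
    have hpos3 : 0 ≤ 3 * (y : ℝ) / n0 := by positivity
    calc C * (i.factorial : ℝ) * (3 * y / n0) ^ i
        ≤ C * (i.factorial : ℝ) * (3 * Real.log y * (y : ℝ) ^ (1 - σ)) ^ i := by gcongr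
      _ = (C * (i.factorial : ℝ) * (3 * Real.log y) ^ i) * ((y : ℝ) ^ (1 - σ)) ^ i := by
          rw [mul_pow]; ring
      _ ≤ (X : ℝ) ^ (2 / a + ε / 2) * (X : ℝ) ^ (2 * (1 - σ) + ε / 2) := by
          apply mul_le_mul q3 hB (by positivity) (by positivity)
      _ = (X : ℝ) ^ (2 * (1 - σ) + 2 / a + ε) := by
          rw [← Real.rpow_add hX0]
          congr 1
          ring
  · -- the number of factors
    have hk1 : (k : ℝ) ≤ 1 / 2 * L / Real.log (2 * y) := by
      rw [hkdef]
      exact Nat.floor_le (by positivity)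
    have hk2 : 1 / 2 * L / Real.log (2 * y) < k + 1 := by
      rw [hkdef]
      exact Nat.lt_floor_add_one _
    have hk3 : (k : ℝ) * Real.log (2 * y) ≤ 1 / 2 * L := by
      rw [le_div_iff₀ hlog2y] at hk1
      exact hk1
    have hk4 : L / (2 * (a * l)) < k + 1 := by
      refine lt_of_le_of_lt ?_ hk2
      rw [div_le_div_iff₀ (by positivity) hlog2y]
      nlinarith
    have h8L : 8 ≤ L / (2 * (a * l)) := by
      rw [le_div_iff₀ (by positivity)]
      linarith
    have hk8 : 8 ≤ k := by
      have h1 : (7 : ℝ) < k := by linarith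
      have h2 : 7 < k := by exact_mod_cast h1
      omega
    have hj1 : 1 ≤ j := by omega
    have hjk : j + 1 = k := by omega
    have hj0 : (0 : ℝ) < j := by exact_mod_cast hj1
    have hjkr : (j : ℝ) + 1 = k := by exact_mod_cast hjk
    have hkL : (k : ℝ) ≤ L / 4 := by
      refine hk1.trans ?_
      rw [div_le_iff₀ hlog2y]
      nlinarith
    have hn1 := card_low hL0 hσ hσ1 p1 hn
    have hpow : L ^ (a * σ) = L ^ (a * σ - 1) * L := by
      rw [Real.rpow_sub_one hL0.ne']
      field_simp
    have hLa1 : 0 < L ^ (a * σ - 1) := by positivity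
    have hjn : (j : ℝ) * L ^ (a * σ - 1) ≤ 2 * n0 := by
      calc (j : ℝ) * L ^ (a * σ - 1) ≤ (L / 4) * L ^ (a * σ - 1) := by
            apply mul_le_mul_of_nonneg_right _ hLa1.le
            linarith
        _ = 2 * (L ^ (a * σ) / 8) := by rw [hpow]; ring
        _ ≤ 2 * n0 := by linarith
    have hLa1log : Real.log (L ^ (a * σ - 1)) = (a * σ - 1) * l := by rw [Real.log_rpow hL0]
    have h6 : 6 ≤ (a * σ - 1) * l := by
      rw [div_le_iff₀ hs] at e6
      linarith
    have hLa1big : 400 ≤ L ^ (a * σ - 1) := by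
      have h1 : Real.exp 6 ≤ L ^ (a * σ - 1) := by
        rw [← Real.exp_log hLa1, hLa1log]
        exact Real.exp_le_exp.2 h6
      have h2 : (400 : ℝ) ≤ Real.exp 6 := by
        have h3 := Real.exp_one_gt_d9
        have h4 : Real.exp 6 = Real.exp 1 ^ 6 := by
          rw [← Real.exp_nat_mul]
          norm_num
        rw [h4]
        calc (400 : ℝ) ≤ 2.7182818283 ^ 6 := by norm_num
          _ ≤ Real.exp 1 ^ 6 := by gcongr
      linarith
    have h80 : 80 * j ≤ n0 := by
      have h1 : (j : ℝ) * 400 ≤ j * L ^ (a * σ - 1) := by gcongr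
      have h2 : (80 : ℝ) * j ≤ n0 := by linarith
      exact_mod_cast h2
    refine ⟨?_, h80, ?_⟩
    · have h1 : (2 * y) ^ (2 * k) ≤ X := by
        have h2 : ((2 * y : ℝ)) ^ (2 * k) ≤ X := by
          rw [← Real.log_le_log_iff (by positivity) hX0, Real.log_pow]
          push_cast
          linarith
        exact_mod_cast h2
      have h2 : (2 * y) * (2 * y) * ((2 * y) ^ j * (2 * y) ^ j) = (2 * y) ^ (2 * k) := by
        rw [← hjk]
        ring
      have h3 : 0 < (2 * y) ^ j * (2 * y) ^ j := by positivity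
      have h4 : 4 * ((2 * y) ^ j * (2 * y) ^ j) < (2 * y) * (2 * y) * ((2 * y) ^ j * (2 * y) ^ j) :=
        Nat.mul_lt_mul_of_pos_right (by nlinarith) h3
      rw [h2] at h4
      exact lt_of_lt_of_le h4 h1
    · have h1 : ((n0 + 1 - j : ℕ) ^ j : ℝ) / (j.factorial : ℝ) ≤ (n0.choose j : ℝ) :=
        Nat.pow_le_choose j n0
      have h2 : (n0 : ℝ) / 2 ≤ ((n0 + 1 - j : ℕ) : ℝ) := by
        rw [Nat.cast_sub (by omega)]
        have : (80 : ℝ) * j ≤ n0 := by exact_mod_cast h80
        push_cast
        linarith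
      have h3 : ((j.factorial : ℕ) : ℝ) ≤ (j : ℝ) ^ j := by
        exact_mod_cast Nat.factorial_le_pow j
      have h4 : ((n0 : ℝ) / 2) ^ j / (j : ℝ) ^ j ≤ (n0.choose j : ℝ) := by
        refine le_trans ?_ h1
        have h5 : (0 : ℝ) < j.factorial := by exact_mod_cast Nat.factorial_pos j
        apply div_le_div₀ (by positivity) _ h5 h3
        gcongr
      refine le_trans ?_ h4
      rw [← div_pow]
      have h5 : L ^ (a * σ - 1) / 4 ≤ (n0 : ℝ) / 2 / j := by
        rw [le_div_iff₀ hj0]
        linarith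
      have h6' : (L ^ (a * σ - 1) / 4) ^ j ≤ ((n0 : ℝ) / 2 / j) ^ j := by gcongr
      refine le_trans ?_ h6'
      rw [← Real.log_le_log_iff (by positivity) (by positivity), Real.log_rpow hX0, Real.log_pow,
        Real.log_div hLa1.ne' (by norm_num), hLa1log]
      have hlog4 : Real.log 4 ≤ 2 := by
        rw [show (4 : ℝ) = 2 ^ 2 by norm_num, Real.log_pow]
        push_cast
        linarith
      have h7 : 0 ≤ (a * σ - 1) * l - 2 := by linarith
      have h8 : L / (2 * (a * l)) - 2 ≤ j := by linarith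
      calc ((σ - 1 / a) / 2 - ε) * L ≤ (L / (2 * (a * l)) - 2) * ((a * σ - 1) * l - 2) := by
            have e9 : (L / (2 * (a * l)) - 2) * ((a * σ - 1) * l - 2) =
                (σ - 1 / a) / 2 * L - L / (a * l) - 2 * ((a * σ - 1) * l) + 4 := by
              field_simp
              ring
            rw [e9]
            have h8 : L / (a * l) ≤ ε / 2 * L := by
              have h9 : 2 / ε ≤ a * l := by linarith
              rw [div_le_iff₀ hε] at h9
              rw [div_le_iff₀ hal0]
              have := mul_le_mul_of_nonneg_left h9 hL0.le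
              linarith
            have h10 : 2 * ((a * σ - 1) * l) ≤ ε / 2 * L := by
              have h11 : (a * σ - 1) * l ≤ a * l := by
                apply mul_le_mul_of_nonneg_right _ hl0.le
                nlinarith
              linarith
            have e10 : ((σ - 1 / a) / 2 - ε) * L = (σ - 1 / a) / 2 * L - ε * L := by ring
            rw [e10]
            linarith
        _ ≤ j * ((a * σ - 1) * l - Real.log 4) := by
            apply mul_le_mul h8 (by linarith) h7 hj0.le

end Pool.Agent.N704.SP
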